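import Pool.Agent.Y685.SolC.Near

/-!
# Contact type between `e₀` and `c_u`: all energy levels, all lattices, and an open set of Hamiltonians

For every closed 3-manifold `M = ℝ^3 / Γ`, `Γ` a lattice of left translations of `Sol`, every energy
level of `H = (p₀² + (e^{x₀} p₁)² + (e^{-x₀} p₂ - 2)²) / 2` strictly between `e₀ = 0` and `c_u = 2` is
of contact type, and at each such level the same holds for all convex superlinear Hamiltonians in an
explicit `C¹`-neighbourhood of `H`.
-/

namespace Pool.Agent.Results.MP_410757_gt.AllLevels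

open Pool.Agent.Results.MP_410757_gt.SolContact Pool.Agent.Y685.SolC

/-- There are lattices `Γ` of left translations of `Sol`; and for every one of them the convex
superlinear Hamiltonian `ham` on `T*(ℝ^3/Γ)` has `e₀ = 0` and `c_u = 2`, all its levels `h ∈ (0, 2)`
are of contact type, and for every `h ∈ (0, 2)` and every convex superlinear `H` on `T*(ℝ^3/Γ)` which is
`h (2 - h) / 1000`-close to `ham` in `C¹` over `{ham ≤ 3}`, one has `e₀(H) < h < c_u(H)` and the level
`{H = h}` is of contact type. -/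
theorem result :
    (∃ Γ : Subgroup (Equiv.Perm V3), IsSolLattice Γ) ∧
    ∀ Γ : Subgroup (Equiv.Perm V3), IsSolLattice Γ →
      (IsConvexSuperlinear Γ ham ∧ IsLeast (surjectiveLevels ham) 0 ∧
        IsGLB (subsolutionLevels ham) 2 ∧
        ∀ h : ℝ, 0 < h → h < 2 → IsContactType Γ ham h) ∧
      ∀ h : ℝ, 0 < h → h < 2 → ∀ H : V3 × V3 → ℝ, IsConvexSuperlinear Γ H →
        IsC1Near (h * (2 - h) / 1000) H →
          AboveE0 H h ∧ BelowCu H h ∧ IsContactType Γ H h := by
  refine ⟨⟨Gam, isSolLattice_Gam⟩, fun Γ hΓ => ⟨⟨isConvexSuperlinear_ham' hΓ, isLeast_e0,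
    isGLB_cu, fun h h0 h2 => ?_⟩, fun h h0 h2 H hH hn =>
    ⟨aboveE0_near hH h0 h2 hn, belowCu_near hH h0 h2 hn, contact_near hΓ hH h0 h2 hn⟩⟩⟩
  exact contact_near hΓ (isConvexSuperlinear_ham' hΓ) h0 h2 (ham_near (eps_le h0 h2).1.le)

end Pool.Agent.Results.MP_410757_gt.AllLevels
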